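import Pool.Agent.H927.QP.St

set_option autoImplicit false

open scoped TensorProduct commutatorElement

noncomputable section

namespace Pool.Agent.H927.QP.Part_drel

open Pool.Agent.H297.QL (Gr gam cl gbr comp hc LV inc lift)

attribute [local instance 100] LieRing.ofAssociativeRing

section derivations

variable (R : Type) [CommRing R]

lemma hat_x (k l c : Fin 3) : hat R k l (x R c) = if c = k then
    Polynomial.C (x R k) + Polynomial.X * Polynomial.C (x R l * x R k - x R k * x R l)
      - Polynomial.X ^ 2 * Polynomial.C ((x R l * x R k - x R k * x R l) * x R l)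
    else Polynomial.C (x R c) := liftA_x R _ c

lemma hat_coeff_zero (k l : Fin 3) (a : FA R) : (hat R k l a).coeff 0 = a := by
  induction a using indA with
  | h0 r =>
    rw [AlgHom.commutes, Polynomial.algebraMap_apply, Polynomial.coeff_C_zero]
  | h1 c =>
    rw [hat_x]
    split_ifs with h
    · rw [h]
      simp [Polynomial.coeff_sub, Polynomial.mul_coeff_zero]
    · simp
  | ha a b iha ihb => rw [map_add, Polynomial.coeff_add, iha, ihb]
  | hm a b iha ihb => rw [map_mul, Polynomial.mul_coeff_zero, iha, ihb]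

lemma del_mul (k l : Fin 3) (a b : FA R) :
    del R k l (a * b) = a * del R k l b + del R k l a * b := by
  change (hat R k l (a * b)).coeff 1 = a * (hat R k l b).coeff 1 + (hat R k l a).coeff 1 * b
  rw [map_mul, Polynomial.mul_coeff_one, hat_coeff_zero, hat_coeff_zero]

lemma del_alg (k l : Fin 3) (r : R) : del R k l (algebraMap R (FA R) r) = 0 := by
  change (hat R k l (algebraMap R (FA R) r)).coeff 1 = 0
  rw [AlgHom.commutes, Polynomial.algebraMap_apply, Polynomial.coeff_C]
  simp

lemma del_int (k l : Fin 3) (n : ℤ) : del R k l (n : FA R) = 0 := by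
  have : (n : FA R) = algebraMap R (FA R) (n : R) := by rw [map_intCast]
  rw [this, del_alg]

lemma del_x_self (k l : Fin 3) : del R k l (x R k) = x R l * x R k - x R k * x R l := by
  change (hat R k l (x R k)).coeff 1 = _
  rw [hat_x, if_pos rfl]
  simp only [Polynomial.coeff_sub, Polynomial.coeff_add, Polynomial.coeff_C, Polynomial.mul_coeff_one,
    Polynomial.coeff_X_zero, Polynomial.coeff_X_one, Polynomial.coeff_X_pow]
  simp

lemma del_x_ne (k l c : Fin 3) (h : c ≠ k) : del R k l (x R c) = 0 := by
  change (hat R k l (x R c)).coeff 1 = _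
  rw [hat_x, if_neg h, Polynomial.coeff_C]
  simp

lemma del_add_del {i j k : Fin 3} (hij : i ≠ j) (hik : i ≠ k) (hjk : j ≠ k) (a : FA R) :
    del R i j a + del R k j a = x R j * a - a * x R j := by
  induction a using indA with
  | h0 r =>
    rw [del_alg, del_alg, ← Algebra.commutes, sub_self, add_zero]
  | h1 c =>
    have hc : c = i ∨ c = j ∨ c = k := by
      revert i j k c; decide
    rcases hc with rfl | rfl | rfl
    · rw [del_x_self, del_x_ne R k j c hik, add_zero]
    · rw [del_x_ne R i c c hij.symm, del_x_ne R k c c hjk, add_zero, sub_self]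
    · rw [del_x_self, del_x_ne R i j c hik.symm, zero_add]
  | ha a b iha ihb =>
    rw [map_add, map_add, mul_add, add_mul]
    calc del R i j a + del R i j b + (del R k j a + del R k j b) =
        (del R i j a + del R k j a) + (del R i j b + del R k j b) := by abel
      _ = _ := by rw [iha, ihb]; abel
  | hm a b iha ihb =>
    rw [del_mul, del_mul]
    calc a * del R i j b + del R i j a * b + (a * del R k j b + del R k j a * b) =
        a * (del R i j b + del R k j b) + (del R i j a + del R k j a) * b := by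
          rw [mul_add, add_mul]; abel
      _ = _ := by
          rw [iha, ihb]
          noncomm_ring

lemma D_apply (k l : Fin 3) (m : M R) (j : Fin 2) : D R k l m j =
    del R k l (m j) + bco k j • ((aco k l 0 • m 0 + aco k l 1 • m 1) * x R l) := rfl

lemma lx_apply (c : Fin 3) (m : M R) (j : Fin 2) : lx R c m j = x R c * m j := rfl

lemma coef_id {i j k : Fin 3} (hij : i ≠ j) (hik : i ≠ k) (hjk : j ≠ k) (r s : Fin 2) :
    bco i r * aco i j s + bco k r * aco k j s = if r = s then 1 else 0 := by
  revert i j k r s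
  decide

/-- (a) -/
lemma D_add_D {i j k : Fin 3} (hij : i ≠ j) (hik : i ≠ k) (hjk : j ≠ k) :
    D R i j + D R k j = lx R j := by
  refine LinearMap.ext fun m => funext fun r => ?_
  change D R i j m r + D R k j m r = x R j * m r
  rw [D_apply, D_apply]
  have h0 := coef_id hij hik hjk r 0
  have h1 := coef_id hij hik hjk r 1
  have h2 := del_add_del R hij hik hjk (m r)
  have h3 : bco i r • ((aco i j 0 • m 0 + aco i j 1 • m 1) * x R j) +
      bco k r • ((aco k j 0 • m 0 + aco k j 1 • m 1) * x R j) = m r * x R j := by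
    have h4 : bco i r • ((aco i j 0 • m 0 + aco i j 1 • m 1) * x R j) +
      bco k r • ((aco k j 0 • m 0 + aco k j 1 • m 1) * x R j) =
      ((bco i r * aco i j 0 + bco k r * aco k j 0) • m 0 +
        (bco i r * aco i j 1 + bco k r * aco k j 1) • m 1) * x R j := by
      rw [← smul_mul_assoc, ← smul_mul_assoc, ← add_mul]
      congr 1
      rw [smul_add, smul_add, smul_smul, smul_smul, smul_smul, smul_smul, add_smul, add_smul]
      abel
    rw [h4, h0, h1]
    fin_cases r <;> simp
  calc del R i j (m r) + bco i r • ((aco i j 0 • m 0 + aco i j 1 • m 1) * x R j) +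
      (del R k j (m r) + bco k r • ((aco k j 0 • m 0 + aco k j 1 • m 1) * x R j)) =
      (del R i j (m r) + del R k j (m r)) +
        (bco i r • ((aco i j 0 • m 0 + aco i j 1 • m 1) * x R j) +
        bco k r • ((aco k j 0 • m 0 + aco k j 1 • m 1) * x R j)) := by abel
    _ = x R j * m r := by rw [h2, h3]; abel

/-- (b) -/
lemma D_comp_lx {i j k : Fin 3} (hji : j ≠ i) :
    D R i k ∘ₗ lx R j = lx R j ∘ₗ D R i k := by
  refine LinearMap.ext fun m => funext fun r => ?_
  change D R i k (lx R j m) r = x R j * D R i k m r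
  rw [D_apply, D_apply, lx_apply, lx_apply, lx_apply, del_mul, del_x_ne R i k j hji, zero_mul,
    add_zero, mul_add]
  congr 1
  rw [mul_smul_comm, ← mul_assoc, mul_add, mul_smul_comm, mul_smul_comm]

end derivations

lemma basisFreeMonoid_one (R : Type) [CommRing R] :
    FreeAlgebra.basisFreeMonoid R (Fin 3) 1 = (1 : FreeAlgebra R (Fin 3)) := by
  unfold FreeAlgebra.basisFreeMonoid
  rw [Module.Basis.map_apply, Finsupp.coe_basisSingleOne, LinearEquiv.symm_apply_eq]
  have h : (FreeAlgebra.equivMonoidAlgebraFreeMonoid :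
      FreeAlgebra R (Fin 3) ≃ₐ[R] MonoidAlgebra R (FreeMonoid (Fin 3))) 1 = 1 := map_one _
  change Finsupp.single 1 1 = MonoidAlgebra.coeffLinearEquiv R
    ((FreeAlgebra.equivMonoidAlgebraFreeMonoid :
      FreeAlgebra R (Fin 3) ≃ₐ[R] MonoidAlgebra R (FreeMonoid (Fin 3))) 1)
  rw [h, MonoidAlgebra.one_def]
  rfl

lemma bas_one (R : Type) [CommRing R] : bas R 1 = (1 : FA R) := basisFreeMonoid_one R

lemma gf_one (R : Type) [CommRing R] (i j : Fin 2) : gf R i j (1 : FA R) = 0 := by
  rw [← bas_one, gf, wfun, Module.Basis.constr_basis]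
  have h : (if (FreeMonoid.toList (1 : FreeMonoid (Fin 3))) ∈ gl i j then (1 : ℤ) else 0) = 0 := by
    rw [FreeMonoid.toList_one]
    revert i j
    decide
  rw [h, Int.cast_zero]

lemma rev_int (R : Type) [CommRing R] (n : ℤ) : rev R (n : FA R) = (n : FA R) := by
  have h : (n : FA R) = algebraMap R (FA R) (n : R) := by rw [map_intCast]
  rw [h]
  change (MulOpposite.opLinearEquiv R).symm (revOp R (algebraMap R (FA R) (n : R))) = _
  rw [AlgHom.commutes]
  rfl

/-- see above -/
theorem drel : S_Drel := by
  refine ⟨?_, ?_, ?_, ?_, ?_⟩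
  · intro k m j hkm hkj hmj
    have h1 : D K k j = lx K j - D K m j := by
      rw [← D_add_D K hkj hkm hmj.symm, add_sub_cancel_right]
    have h2 : D K m j ∘ₗ lx K j = lx K j ∘ₗ D K m j := D_comp_lx K hmj.symm
    rw [h1, LinearMap.sub_comp, LinearMap.comp_sub, h2]
  · intro i j k hij hik hjk
    rw [D_add_D K hij hik hjk, D_comp_lx K hij.symm]
  · intro k l m hkl hkm hlm
    funext r
    rw [D_apply]
    change del K k l ((bco m r : ℤ) : FA K) + bco k r • ((aco k l 0 • ((bco m 0 : ℤ) : FA K) +
      aco k l 1 • ((bco m 1 : ℤ) : FA K)) * x K l) = 0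
    have h : aco k l 0 * bco m 0 + aco k l 1 * bco m 1 = 0 := by
      revert k l m
      decide
    have h2 : aco k l 0 • ((bco m 0 : ℤ) : FA K) + aco k l 1 • ((bco m 1 : ℤ) : FA K) = 0 := by
      rw [zsmul_eq_mul, zsmul_eq_mul, ← Int.cast_mul, ← Int.cast_mul, ← Int.cast_add, h,
        Int.cast_zero]
    rw [del_int, h2, zero_mul, smul_zero, add_zero]
  · funext r
    change ((bco 0 r : ℤ) : FA K) + ((bco 1 r : ℤ) : FA K) + ((bco 2 r : ℤ) : FA K) = 0
    rw [← Int.cast_add, ← Int.cast_add]
    have h : bco 0 r + bco 1 r + bco 2 r = 0 := by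
      revert r
      decide
    rw [h, Int.cast_zero]
  · intro i j
    change ∑ i', ∑ j', gf K i' j' (rev K ((bco i.castSucc i' : ℤ) : FA K) *
      ((bco j.castSucc j' : ℤ) : FA K)) = 0
    refine Finset.sum_eq_zero fun i' _ => Finset.sum_eq_zero fun j' _ => ?_
    rw [rev_int, ← Int.cast_mul]
    have h : (((bco i.castSucc i' * bco j.castSucc j' : ℤ)) : FA K) =
        ((bco i.castSucc i' * bco j.castSucc j' : ℤ)) • (1 : FA K) := by
      rw [zsmul_eq_mul, mul_one]
    rw [h, map_zsmul, gf_one, smul_zero]

end Pool.Agent.H927.QP.Part_drel
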